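import Pool.Agent.NH30.KF.Special
import Pool.Agent.NH30.KF.Elim
import Pool.Agent.NH30.KF.Gen

/-!
# Infinite arrays (helper30)
-/

set_option autoImplicit false

namespace Pool.Agent.NH30.KA

open Pool.Agent.NH30.KF Filter H294ZP

/-- Arrays of points of the closed subset of `(P^1)^n` defined by `F`: points `X a`, `a ∈ ℤ^n`, such
that the `i`-th coordinate of `X (a + e_i)` is the `ρ i`-th coordinate of `X a` if `ρ i ≠ i`. The
coordinates in `S` have given values `z`, those in `J` are roots of `h`. -/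
def HasArray (k : Type) [Field k] {n d : ℕ} {κ : Type} (F : κ → (Fin n → Fin (d + 1)) → ℤ)
    (ρ : Fin n → Fin n) (S J : Finset (Fin n)) (z : Fin n → ℤ) (h : Polynomial ℤ) : Prop :=
  ∃ X : (Fin n → ℤ) → Fin n → Option k,
    (∀ a j, evp (fun e => (F j e : k)) (X a) = 0) ∧
    (∀ a, ∀ i ∈ S, X a i = some (z i : k)) ∧
    (∀ a, ∀ i ∈ J, ∃ x, X a i = some x ∧ h.eval₂ (Int.castRingHom k) x = 0) ∧
    ∀ a i, ρ i ≠ i → X (Function.update a i (a i + 1)) i = X a (ρ i)

theorem evp_hom {k k' : Type} [Field k] [Field k'] (f : k →+* k') {n d : ℕ}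
    (F : (Fin n → Fin (d + 1)) → ℤ) (X : Fin n → Option k) :
    evp (fun e => (F e : k')) (fun i => (X i).map f) = f (evp (fun e => (F e : k)) X) := by
  unfold evp
  rw [map_sum]
  refine Finset.sum_congr rfl fun e _ => ?_
  rw [map_mul, map_intCast, map_prod]
  congr 1
  refine Finset.prod_congr rfl fun i _ => ?_
  rw [map_mul, map_pow, map_pow]
  congr 2
  · exact num_map f (X i)
  · exact den_map f (X i)

theorem HasArray.map {k k' : Type} [Field k] [Field k'] (f : k →+* k') {n d : ℕ} {κ : Type}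
    {F : κ → (Fin n → Fin (d + 1)) → ℤ} {ρ : Fin n → Fin n} {S J : Finset (Fin n)}
    {z : Fin n → ℤ} {h : Polynomial ℤ} (H : HasArray k F ρ S J z h) : HasArray k' F ρ S J z h := by
  obtain ⟨X, h1, h2, h3, h4⟩ := H
  refine ⟨fun a i => (X a i).map f, fun a j => ?_, fun a i hi => ?_, fun a i hi => ?_,
    fun a i hi => ?_⟩
  · rw [evp_hom f, h1 a j, map_zero]
  · beta_reduce
    rw [h2 a i hi]
    simp
  · obtain ⟨x, hx, hx0⟩ := h3 a i hi
    refine ⟨f x, by beta_reduce; rw [hx]; rfl, ?_⟩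
    have e1 := congrArg f hx0
    rw [Polynomial.hom_eval₂, map_zero] at e1
    have e2 : f.comp (Int.castRingHom k) = Int.castRingHom k' := RingHom.ext_int _ _
    rw [e2] at e1
    exact e1
  · beta_reduce
    rw [h4 a i hi]

/-- the polynomial `Y - X` -/
noncomputable def eqPoly : Polynomial (Polynomial ℤ) :=
  Polynomial.X - Polynomial.C Polynomial.X

theorem eqPoly_monic : eqPoly.Monic := Polynomial.monic_X_sub_C _

theorem ev2_eqPoly {k : Type*} [CommRing k] (x y : k) : ev2 eqPoly x y = y - x := by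
  simp [ev2, eqPoly, Polynomial.eval₂_sub]

theorem lk_eqPoly {k : Type*} [CommRing k] {X Y : Option k} (h : Lk eqPoly X Y) : X = Y := by
  rcases h with ⟨h1, h2⟩ | ⟨x, y, h1, h2, h3, -⟩
  · rw [h1, h2]
  · rw [ev2_eqPoly, sub_eq_zero] at h3
    rw [h1, h2, h3]

/-- the ultrapower -/
abbrev UP : Type := (hyperfilter ℕ : Filter ℕ).Germ ℂ

theorem mk_UP : Cardinal.mk UP = Cardinal.continuum := by
  refine le_antisymm ?_ ?_
  · refine (Cardinal.mk_le_of_surjective (f := fun v : ℕ → ℂ => (v : UP)) ?_).trans ?_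
    · intro x
      induction x using Germ.inductionOn with
      | _ v => exact ⟨v, rfl⟩
    · rw [Cardinal.mk_pi]
      simp [Cardinal.mk_complex]
  · rw [← Cardinal.mk_complex]
    refine Cardinal.mk_le_of_injective (f := fun x : ℂ => ((fun _ => x : ℕ → ℂ) : UP)) ?_
    intro x y hxy
    have h1 := Germ.coe_eq.1 hxy
    obtain ⟨m, hm⟩ := h1.exists
    exact hm

/-- the constants -/
noncomputable def constHom : ℂ →+* UP :=
  (Germ.coeRingHom (hyperfilter ℕ : Filter ℕ)).comp (Pi.constRingHom ℕ ℂ)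

theorem UP_to_complex : Nonempty (UP →+* ℂ) := by
  have hc0 : CharZero UP := charZero_of_injective_ringHom constHom.injective
  have hc1 : CharZero (AlgebraicClosure UP) :=
    charZero_of_injective_algebraMap (algebraMap UP (AlgebraicClosure UP)).injective
  have h1 : Cardinal.mk (AlgebraicClosure UP) = Cardinal.continuum := by
    refine le_antisymm ?_ ?_
    · refine (Algebra.IsAlgebraic.cardinalMk_le_max UP (AlgebraicClosure UP)).trans ?_
      rw [mk_UP]
      exact max_le le_rfl Cardinal.aleph0_le_continuum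
    · rw [← mk_UP]
      exact Cardinal.mk_le_of_injective (algebraMap UP (AlgebraicClosure UP)).injective
  obtain ⟨e⟩ := IsAlgClosed.ringEquiv_of_equiv_of_charZero (K := AlgebraicClosure UP) (L := ℂ)
    (by rw [h1]; exact Cardinal.aleph0_lt_continuum)
    (by rw [← Cardinal.eq, h1, Cardinal.mk_complex])
  exact ⟨(e : AlgebraicClosure UP →+* ℂ).comp (algebraMap UP (AlgebraicClosure UP))⟩

open Classical in
/-- limits of points of the projective line -/
noncomputable def lim (X : ℕ → Option ℂ) : Option UP :=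
  if ∀ᶠ M in (hyperfilter ℕ : Filter ℕ), X M = none then none
  else some ((fun M => num (X M) : ℕ → ℂ) : UP)

theorem num_lim (X : ℕ → Option ℂ) : num (lim X) = ((fun M => num (X M) : ℕ → ℂ) : UP) := by
  unfold lim
  split_ifs with h
  · show (1 : UP) = _
    rw [← Germ.coe_one]
    refine Germ.coe_eq.2 ?_
    filter_upwards [h] with M hM
    rw [hM]
    rfl
  · rfl

theorem den_lim (X : ℕ → Option ℂ) : den (lim X) = ((fun M => den (X M) : ℕ → ℂ) : UP) := by
  unfold lim
  split_ifs with h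
  · show (0 : UP) = _
    rw [← Germ.coe_zero]
    refine Germ.coe_eq.2 ?_
    filter_upwards [h] with M hM
    rw [hM]
    rfl
  · show (1 : UP) = _
    rw [← Germ.coe_one]
    refine Germ.coe_eq.2 ?_
    have h' := Ultrafilter.eventually_not.2 h
    filter_upwards [h'] with M hM
    cases hX : X M with
    | none => exact absurd hX hM
    | some x => rfl

theorem lim_congr {X Y : ℕ → Option ℂ} (h : ∀ᶠ M in (hyperfilter ℕ : Filter ℕ), X M = Y M) :
    lim X = lim Y := by
  classical
  have h1 : (∀ᶠ M in (hyperfilter ℕ : Filter ℕ), X M = none) ↔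
      ∀ᶠ M in (hyperfilter ℕ : Filter ℕ), Y M = none := by
    constructor
    · intro h2
      filter_upwards [h, h2] with M hM hM2
      rw [← hM, hM2]
    · intro h2
      filter_upwards [h, h2] with M hM hM2
      rw [hM, hM2]
  have h2 : ((fun M => num (X M) : ℕ → ℂ) : UP) = ((fun M => num (Y M) : ℕ → ℂ) : UP) := by
    refine Germ.coe_eq.2 ?_
    filter_upwards [h] with M hM
    rw [hM]
  unfold lim
  by_cases h3 : ∀ᶠ M in (hyperfilter ℕ : Filter ℕ), X M = none
  · rw [if_pos h3, if_pos (h1.1 h3)]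
  · rw [if_neg h3, if_neg (fun h4 => h3 (h1.2 h4)), h2]

theorem lim_some (x : ℕ → ℂ) : lim (fun M => some (x M)) = some ((x : ℕ → ℂ) : UP) := by
  unfold lim
  rw [if_neg]
  · rfl
  · intro h
    obtain ⟨M, hM⟩ := h.exists
    exact absurd hM (by simp)

theorem evp_lim {n d : ℕ} (F : (Fin n → Fin (d + 1)) → ℤ) (X : ℕ → Fin n → Option ℂ) :
    evp (fun e => (F e : UP)) (fun i => lim fun M => X M i) =
      ((fun M => evp (fun e => (F e : ℂ)) (X M) : ℕ → ℂ) : UP) := by
  let φ := Germ.coeRingHom (R := ℂ) (hyperfilter ℕ : Filter ℕ)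
  have h1 : (fun M => evp (fun e => (F e : ℂ)) (X M)) =
      ∑ e : Fin n → Fin (d + 1), ((F e : ℤ) : ℕ → ℂ) *
        ∏ i, ((fun M => num (X M i)) ^ (e i : ℕ) * (fun M => den (X M i)) ^ (d - (e i : ℕ))) := by
    funext M
    rw [Finset.sum_apply]
    refine Finset.sum_congr rfl fun e _ => ?_
    rw [Pi.mul_apply, Finset.prod_apply]
    rfl
  have h2 : ((fun M => evp (fun e => (F e : ℂ)) (X M) : ℕ → ℂ) : UP) =
      φ (fun M => evp (fun e => (F e : ℂ)) (X M)) := rfl
  rw [h2, h1, map_sum]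
  unfold evp
  refine Finset.sum_congr rfl fun e _ => ?_
  rw [map_mul, map_intCast, map_prod]
  congr 1
  refine Finset.prod_congr rfl fun i _ => ?_
  rw [map_mul, map_pow, map_pow, num_lim, den_lim]
  rfl

/-- the position in the grid of size `2 M` -/
def pos {n : ℕ} (M : ℕ) (a : Fin n → ℤ) : Fin n → Fin (2 * M + 1) := fun i =>
  ⟨min (a i + M).toNat (2 * M), by omega⟩

/-- Grids of all sizes give infinite arrays. -/
theorem hasArray_of_grids {n d : ℕ} {κ : Type} (F : κ → (Fin n → Fin (d + 1)) → ℤ)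
    (ρ : Fin n → Fin n) (S J : Finset (Fin n)) (hSJ : Disjoint S J) (z : Fin n → ℤ)
    (h : Polynomial ℤ)
    (H : ∀ L, HasGrid ℂ eqPoly (fun j e => ((F j e : ℤ) : ℂ)) ρ (S ∪ J) (fixPoly z h S) L) :
    HasArray ℂ F ρ S J z h := by
  classical
  obtain ⟨f⟩ := UP_to_complex
  refine HasArray.map f ?_
  choose B h1 h2 h3 using fun M : ℕ => H (2 * M)
  refine ⟨fun a i => lim fun M => B M (pos M a) i, fun a j => ?_, fun a i hi => ?_,
    fun a i hi => ?_, fun a i hi => ?_⟩
  · rw [evp_lim (F j) (fun M => B M (pos M a))]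
    have e1 : (fun M => evp (fun e => (F j e : ℂ)) (B M (pos M a))) = 0 := by
      funext M
      exact h1 M (pos M a) j
    rw [e1]
    rfl
  · have e1 : (fun M => B M (pos M a) i) = fun _ => some ((z i : ℤ) : ℂ) := by
      funext M
      obtain ⟨x, hx, hx0⟩ := h2 M (pos M a) i (Finset.mem_union_left _ hi)
      rw [fixPoly, if_pos hi, Polynomial.eval₂_sub, Polynomial.eval₂_X,
        Polynomial.eval₂_C, sub_eq_zero, eq_intCast] at hx0
      rw [hx, hx0]
    beta_reduce
    rw [e1, lim_some]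
    congr 1
  · have hiS : i ∉ S := fun h5 => Finset.disjoint_left.1 hSJ h5 hi
    choose x hx hx0 using fun M => h2 M (pos M a) i (Finset.mem_union_right _ hi)
    have e1 : (fun M => B M (pos M a) i) = fun M => some (x M) := funext hx
    refine ⟨((x : ℕ → ℂ) : UP), ?_, ?_⟩
    · beta_reduce
      rw [e1, lim_some]
    · let φ := Germ.coeRingHom (R := ℂ) (hyperfilter ℕ : Filter ℕ)
      have e2 : h.eval₂ (Int.castRingHom (ℕ → ℂ)) x = 0 := by
        funext M
        have e3 := Polynomial.hom_eval₂ h (Int.castRingHom (ℕ → ℂ)) (Pi.evalRingHom (fun _ => ℂ) M) x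
        have e4 : (Pi.evalRingHom (fun _ => ℂ) M).comp (Int.castRingHom (ℕ → ℂ)) =
          Int.castRingHom ℂ := RingHom.ext_int _ _
        rw [e4] at e3
        have e5 := hx0 M
        rw [fixPoly, if_neg hiS] at e5
        exact e3.trans e5
      have e6 := congrArg φ e2
      rw [Polynomial.hom_eval₂, map_zero] at e6
      have e7 : φ.comp (Int.castRingHom (ℕ → ℂ)) = Int.castRingHom UP := RingHom.ext_int _ _
      rw [e7] at e6
      exact e6
  · refine lim_congr ?_
    let A : ℕ := ∑ j, (a j).natAbs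
    have hA : ∀ j, (a j).natAbs ≤ A := fun j =>
      Finset.single_le_sum (f := fun j => (a j).natAbs) (fun _ _ => Nat.zero_le _)
        (Finset.mem_univ j)
    have hev : ∀ᶠ M in (hyperfilter ℕ : Filter ℕ), A + 1 ≤ M :=
      (eventually_ge_atTop (A + 1)).filter_mono (by
        rw [← Nat.cofinite_eq_atTop]
        exact hyperfilter_le_cofinite)
    filter_upwards [hev] with M hM
    refine lk_eqPoly (h3 M (pos M a) (pos M (Function.update a i (a i + 1))) i hi ?_ ?_)
    · intro j hj
      apply Fin.ext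
      show min ((Function.update a i (a i + 1) j) + (M : ℤ)).toNat (2 * M) =
        min (a j + (M : ℤ)).toNat (2 * M)
      rw [Function.update_of_ne hj]
    · have h5 := hA i
      show min ((Function.update a i (a i + 1) i) + (M : ℤ)).toNat (2 * M) =
        min (a i + (M : ℤ)).toNat (2 * M) + 1
      rw [Function.update_self]
      omega

/-- **Dichotomy** for closed subsets defined over the integers. -/
theorem dichotomy {n d c : ℕ} {κ : Type} [Finite κ] (F : κ → (Fin n → Fin (d + 1)) → ℤ)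
    (h : Polynomial ℤ) (hh : h.Monic) :
    (∃ N₀ : ℤ, N₀ ≠ 0 ∧ ∀ p : ℕ, p.Prime → ¬ (p : ℤ) ∣ N₀ → ∀ Λ : Subring ℂ,
      NoAtypical p 1 h Λ c (zeroSet fun j e => ((F j e : ℤ) : ℂ))) ∨
    ∃ (ρ : Fin n → Fin n) (S J : Finset (Fin n)), Cond c ρ S J ∧
      ∀ z : Fin n → ℤ, HasArray ℂ F ρ S J z h := by
  classical
  by_cases hcase : ∀ (ρ : Fin n → Fin n) (S J : Finset (Fin n)), Cond c ρ S J →
      ∃ (z : Fin n → ℤ) (L : ℕ),
        ¬ HasGrid ℂ eqPoly (fun j e => ((F j e : ℤ) : ℂ)) ρ (S ∪ J) (fixPoly z h S) L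
  · left
    have key : ∀ v : (Fin n → Fin n) × Finset (Fin n) × Finset (Fin n), ∃ R : ℤ, R ≠ 0 ∧
        (Cond c v.1 v.2.1 v.2.2 → ∃ (z : Fin n → ℤ) (L : ℕ), ∀ (k : Type) [Field k]
          (f : ℤ →+* k), f R ≠ 0 →
          ¬ HasGrid k eqPoly (fun j e => f (F j e)) v.1 (v.2.1 ∪ v.2.2) (fixPoly z h v.2.1) L) := by
      rintro ⟨ρ, S, J⟩
      by_cases hc : Cond c ρ S J
      swap
      · exact ⟨1, one_ne_zero, fun h => absurd h hc⟩
      obtain ⟨z, L, hzL⟩ := hcase ρ S J hc
      obtain ⟨R, hR0, hR⟩ := elim (Λ := ℤ) eqPoly F ρ (S ∪ J) (fixPoly z h S) L (by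
        intro K _ f hf hgrid
        have hchar : CharZero K := by
          refine ⟨fun a b hab => ?_⟩
          have h1 : f (a : ℤ) = f (b : ℤ) := by
            rw [map_natCast, map_natCast, hab]
          exact_mod_cast hf h1
        apply hzL
        refine grid_transfer eqPoly F ρ (S ∪ J) (fixPoly z h S) L K ?_
        have e1 : (fun j e => f (F j e)) = fun j e => ((F j e : ℤ) : K) := by
          funext j e
          exact eq_intCast f _
        rw [e1] at hgrid
        exact hgrid)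
      exact ⟨R, hR0, fun _ => ⟨z, L, hR⟩⟩
    choose R hR0 hR using key
    refine ⟨∏ v, R v, Finset.prod_ne_zero_iff.2 fun v _ => hR0 v, fun p hp hdvd Λ => ?_⟩
    refine mainZ eqPoly_monic ?_ hh F hp ?_ Λ
    · intro τ w a b c' d' N hN hN1 hdet hw
      have hN' : N = 1 := by omega
      subst hN'
      rw [ev2_eqPoly, sub_eq_zero]
      exact inv_jj a b c' d' (by rw [hdet]; rfl) τ w hw
    · intro ρ S J hc
      obtain ⟨z, L, hzL⟩ := hR (ρ, S, J) hc
      refine ⟨z, L, fun k _ _ => ?_⟩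
      refine hzL k (Int.castRingHom k) ?_
      intro h0
      apply hdvd
      have h1 : (p : ℤ) ∣ R (ρ, S, J) := by
        rw [← CharP.intCast_eq_zero_iff k p]
        exact h0
      exact h1.trans (Finset.dvd_prod_of_mem R (Finset.mem_univ (ρ, S, J)))
  · right
    push Not at hcase
    obtain ⟨ρ, S, J, hc, H⟩ := hcase
    exact ⟨ρ, S, J, hc, fun z => hasArray_of_grids F ρ S J hc.2.1 z h (H z)⟩

end Pool.Agent.NH30.KA
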